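import Pool.Agent.KS6_5.UR.Numbers

/-!
# Weil numbers with one unit root: words with a relation are balanced
-/

set_option autoImplicit false
set_option linter.unusedSectionVars false
set_option linter.unusedVariables false

namespace Pool.Agent.KS6_5.UR

open NumberField Polynomial Module IntermediateField
open Pool.Agent.TH121.KT Pool.Agent.KS6_5.SP Pool.Agent.KS6_5.OC Pool.Agent.KS6_5.OG
open Pool.Agent.KS6_5.OF (Flips lv log_q lv_conj lv_pow)

noncomputable section

variable {p : ℕ} [Fact p.Prime] {a : ℕ} {ι : Type} {r : ι → ℕ} {E : ι → Type} [∀ i, Field (E i)]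
  [∀ i, NumberField (E i)] [∀ i, IsCMField (E i)] {π : ∀ i, E i}

/-- **The relations between the conjugates and a number `β`.** -/
theorem balanced [Fintype ι] (ha : 0 < a) (H : IsUnitRootNumbers p a r π) {κ : Type*} [Fintype κ]
    [DecidableEq (Σ i, (E i →+* Qb))] (I : κ → Σ i, (E i →+* Qb)) (N : ℕ) (hN : 0 < N) (β : Qb)
    (hβ0 : β ≠ 0) (hF : IsForeign p a π β) (e : ℕ)
    (hrel : ∏ l, (vl π (I l)) ^ N = β ^ N * (((p ^ a : ℕ) : Qb) ^ e) ^ N)
    (x₀ : Σ i, (E i →+* Qb)) :
    (Finset.univ.filter (fun l => I l = x₀)).card =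
      (Finset.univ.filter (fun l => I l = cjS x₀)).card := by
  classical
  obtain ⟨τp⟩ : Nonempty (Qb →ₐ[ℚ] PadicAlgCl p) := ⟨IsAlgClosed.lift⟩
  let τ : Qb →+* PadicAlgCl p := τp.toRingHom
  have hL := log_pos' (p := p) ha
  set L : ℝ := Real.log ((p ^ a : ℕ) : ℝ) with hLdef
  have hfinX : Finite (Σ i, (E i →+* Qb)) := inferInstance
  have hfin : Finite (Equiv.Perm (Σ i, (E i →+* Qb))) := inferInstance
  let _ : Fintype (ac E).range := Fintype.ofFinite _
  have HS := H.toSlopes ha τ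
  -- the sums over the word
  have hT : ∀ l : Qb →+* PadicAlgCl p,
      ∑ k, lv a l (vl π (I k)) = 2 * Real.log ‖l β‖ + (Fintype.card κ - 2 * e) * L := by
    intro l
    have hn0 : ∀ x : Qb, x ≠ 0 → ‖l x‖ ≠ 0 := fun x hx =>
      norm_ne_zero_iff.2 ((_root_.map_ne_zero l).2 hx)
    have h1 := congrArg (fun x => Real.log ‖l x‖) hrel
    simp only [map_mul, map_pow, map_prod, norm_mul, norm_pow, norm_prod] at h1
    rw [Real.log_prod (fun i _ => pow_ne_zero _ (hn0 _ (H.ne_zero _))),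
      Real.log_mul (pow_ne_zero _ (hn0 _ hβ0)) (pow_ne_zero _ (pow_ne_zero _ (hn0 _ q_ne))),
      Real.log_pow, Real.log_pow, Real.log_pow, log_q, ← hLdef] at h1
    simp only [Real.log_pow] at h1
    rw [← Finset.mul_sum] at h1
    have hN' : (N : ℝ) ≠ 0 := Nat.cast_ne_zero.2 hN.ne'
    have h2 : ∑ k, Real.log ‖l (vl π (I k))‖ = Real.log ‖l β‖ - e * L := by
      have h3 : (N : ℝ) * ∑ k, Real.log ‖l (vl π (I k))‖ = N * (Real.log ‖l β‖ - e * L) := by
        rw [h1]
        ring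
      exact mul_left_cancel₀ hN' h3
    simp only [lv]
    rw [Finset.sum_add_distrib, ← Finset.mul_sum, Finset.sum_const, Finset.card_univ,
      nsmul_eq_mul, ← hLdef, h2]
    ring
  let c : (Σ i, (E i →+* Qb)) → ℤ := fun x =>
    ((Finset.univ.filter (fun l => I l = x)).card : ℤ) -
      ((Finset.univ.filter (fun l => I l = cjS x)).card : ℤ)
  have hc : ∀ x, c (cjS x) = - c x := by
    intro x
    simp only [c, cjS_cjS]
    ring
  have hword : ∀ F : (Σ i, (E i →+* Qb)) → ℝ,
      ∑ x, ((Finset.univ.filter (fun l => I l = x)).card : ℝ) * F x = ∑ k, F (I k) := by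
    intro F
    rw [← Finset.sum_fiberwise (s := Finset.univ) (g := I)]
    refine Finset.sum_congr rfl fun x _ => ?_
    rw [Finset.sum_congr rfl (g := fun _ => F x) (fun l hl => by
      rw [(Finset.mem_filter.1 hl).2]), Finset.sum_const, nsmul_eq_mul]
  have hbarEquiv : Function.Involutive (cjS : (Σ i, (E i →+* Qb)) → Σ i, (E i →+* Qb)) := cjS_cjS
  have hsum : ∀ l : Qb →+* PadicAlgCl p,
      ∑ x, (c x : ℝ) * lv a l (vl π x) =
        2 * (2 * Real.log ‖l β‖ + (Fintype.card κ - 2 * e) * L) := by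
    intro l
    have h1 : ∑ x, (c x : ℝ) * lv a l (vl π x) =
        ∑ x, ((Finset.univ.filter (fun l => I l = x)).card : ℝ) * lv a l (vl π x) -
        ∑ x, ((Finset.univ.filter (fun l => I l = cjS x)).card : ℝ) * lv a l (vl π x) := by
      rw [← Finset.sum_sub_distrib]
      refine Finset.sum_congr rfl fun x _ => ?_
      simp only [c]
      push_cast
      ring
    have h2 : ∑ x, ((Finset.univ.filter (fun l => I l = cjS x)).card : ℝ) * lv a l (vl π x) =
        - ∑ x, ((Finset.univ.filter (fun l => I l = x)).card : ℝ) * lv a l (vl π x) := by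
      rw [← Equiv.sum_comp (Function.Involutive.toPerm cjS hbarEquiv), ← Finset.sum_neg_distrib]
      refine Finset.sum_congr rfl fun x _ => ?_
      change ((Finset.univ.filter (fun l => I l = cjS (cjS x))).card : ℝ) *
        lv a l (vl π (cjS x)) = _
      rw [cjS_cjS, H.lv_bar, mul_neg]
    rw [h1, h2, hword, hT]
    ring
  -- the automorphism for the letter
  obtain ⟨h, ⟨m, hm, hh⟩, hβ⟩ := hF x₀.1 x₀.2
  have hx₀ : ac E h x₀ = cjS x₀ := by
    obtain ⟨g, hg⟩ := H.exists_unit τ (cjS x₀)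
    have h1 : lv a τ (vl π (ac E g (ac E h x₀))) = L := by
      have h2 : lv a (τ.comp (g : Qb →+* Qb)) (h (vl π x₀)) =
          - lv a (τ.comp (g : Qb →+* Qb)) (vl π x₀) := by
        refine lv_conj (H.ne_zero x₀) ((map_ne_zero_iff h h.injective).2 (H.ne_zero x₀)) hm ?_
        rw [mul_comm]
        exact hh
      have h3 := H.lv_bar (τ.comp (g : Qb →+* Qb)) x₀
      change lv a (τ.comp (g : Qb →+* Qb)) (h (vl π x₀)) = L
      rw [h2, ← h3]
      exact hg
    exact (ac E g).injective (H.unique_unit τ rfl h1 hg)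
  have hinv : ∀ x, c (ac E h⁻¹ x) = c x := by
    intro x
    have h4 := HS.eq_zero (fun x => c (ac E h⁻¹ x) - c x) (fun x => by
      have h5 : ac E h⁻¹ (cjS x) = cjS (ac E h⁻¹ x) := rfl
      simp only [h5, hc]
      ring) (by
      rintro ⟨_, g, rfl⟩
      change ∑ x, ((c (ac E h⁻¹ x) - c x : ℤ) : ℝ) * lv a (τ.comp (g : Qb →+* Qb)) (vl π x) = 0
      have h6 : ∑ x, ((c (ac E h⁻¹ x) - c x : ℤ) : ℝ) * lv a (τ.comp (g : Qb →+* Qb)) (vl π x) =
          ∑ x, (c (ac E h⁻¹ x) : ℝ) * lv a (τ.comp (g : Qb →+* Qb)) (vl π x) -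
          ∑ x, (c x : ℝ) * lv a (τ.comp (g : Qb →+* Qb)) (vl π x) := by
        rw [← Finset.sum_sub_distrib]
        refine Finset.sum_congr rfl fun x _ => ?_
        push_cast
        ring
      have h7 : ∑ x, (c (ac E h⁻¹ x) : ℝ) * lv a (τ.comp (g : Qb →+* Qb)) (vl π x) =
          ∑ x, (c x : ℝ) * lv a ((τ.comp (g : Qb →+* Qb)).comp (h : Qb →+* Qb)) (vl π x) := by
        rw [← Equiv.sum_comp (ac E h)]
        refine Finset.sum_congr rfl fun x _ => ?_
        have h8 : ac E h⁻¹ (ac E h x) = x := by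
          rw [← Equiv.Perm.mul_apply, ← map_mul, inv_mul_cancel, map_one]
          rfl
        rw [h8]
        rfl
      rw [h6, h7, hsum, hsum]
      have h9 : ‖((τ.comp (g : Qb →+* Qb)).comp (h : Qb →+* Qb)) β‖ =
          ‖(τ.comp (g : Qb →+* Qb)) β‖ := hβ (τ.comp (g : Qb →+* Qb))
      rw [h9, sub_self]) x
    simpa [sub_eq_zero] using h4
  have h10 : c x₀ = 0 := by
    have h11 := hinv (ac E h x₀)
    have h12 : ac E h⁻¹ (ac E h x₀) = x₀ := by
      rw [← Equiv.Perm.mul_apply, ← map_mul, inv_mul_cancel, map_one]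
      rfl
    rw [h12, hx₀, hc] at h11
    linarith
  simp only [c] at h10
  omega

/-- the number one is foreign -/
theorem foreign_one (H : IsUnitRootNumbers p a r π) : IsForeign p a π 1 := by
  obtain ⟨φ₀⟩ : Nonempty (Qb →ₐ[ℚ] ℂ) := ⟨IsAlgClosed.lift⟩
  let φ : Qb →+* ℂ := φ₀.toRingHom
  obtain ⟨k, hk⟩ := exists_aut φ ((starRingEnd ℂ).comp φ)
  intro i ψ
  refine ⟨k, ⟨1, one_pos, ?_⟩, fun l => by rw [map_one]⟩
  rw [pow_one, pow_one]
  apply φ.injective
  have h1 := congrArg (fun x => (φ.comp ψ) x) (H.weight i)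
  simp only [map_mul, map_pow, map_natCast] at h1
  rw [IsCMField.complexEmbedding_complexConj (E i) (φ.comp ψ) (π i)] at h1
  rw [map_mul, ← hk, map_natCast, mul_comm, Nat.cast_pow]
  exact h1

end

end Pool.Agent.KS6_5.UR
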