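import Mathlib

/-!
# One unit root: the combinatorial core
-/

set_option autoImplicit false

namespace Pool.Agent.KS6_5.UR

open Finset

/-- The functions of slopes, on the finite set `X` of the numbers, with the action of the finite group
`G`, the complex conjugation `bar` and the classes `lab` of conjugate numbers. -/
structure Slopes {G X ι : Type*} [Group G] [Fintype G] [Fintype X] [MulAction G X]
    (lab : X → ι) (bar : X → X) (f : X → ℝ) (L : ℝ) (r : ι → ℕ) : Prop where
  prime : ∀ i, (r i).Prime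
  pos : 0 < L
  lab_smul : ∀ (g : G) (x : X), lab (g • x) = lab x
  lab_bar : ∀ x, lab (bar x) = lab x
  bar_bar : ∀ x, bar (bar x) = x
  bar_smul : ∀ (g : G) (x : X), bar (g • x) = g • bar x
  bar_ne : ∀ x, bar x ≠ x
  odd : ∀ x, f (bar x) = - f x
  unit : ∀ x, ∃ g : G, f (g • x) = L
  unique : ∀ x y, lab x = lab y → f x = L → f y = L → x = y
  slope : ∀ y, f y = L ∨ f y = - L ∨
    ∃ (n : ℕ) (m : ℤ), ¬ r (lab y) ∣ n ∧ (n : ℝ) * f y = r (lab y) * m * L
  orth : ∀ x y, lab x ≠ lab y → ∑ g : G, f (g • x) * f (g • y) = 0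

variable {G X ι : Type*} [Group G] [Fintype G] [Fintype X] [MulAction G X]
  {lab : X → ι} {bar : X → X} {f : X → ℝ} {L : ℝ} {r : ι → ℕ}

open Classical in
/-- the parts of a relation in the different classes are relations -/
theorem Slopes.part (H : Slopes (G := G) lab bar f L r) (c : X → ℤ)
    (hrel : ∀ g : G, ∑ x, (c x : ℝ) * f (g • x) = 0) (i : ι) (g : G) :
    ∑ x ∈ univ.filter (fun x => lab x = i), (c x : ℝ) * f (g • x) = 0 := by
  set A : G → ℝ := fun g => ∑ x ∈ univ.filter (fun x => lab x = i), (c x : ℝ) * f (g • x) with hA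
  set B : G → ℝ := fun g => ∑ x ∈ univ.filter (fun x => ¬ lab x = i), (c x : ℝ) * f (g • x) with hB
  have hAB : ∀ g, A g + B g = 0 := by
    intro g
    rw [← hrel g]
    exact Finset.sum_filter_add_sum_filter_not univ _ _
  have horth : ∑ g, A g * B g = 0 := by
    have h1 : ∀ g, A g * B g = ∑ x ∈ univ.filter (fun x => lab x = i),
        ∑ y ∈ univ.filter (fun x => ¬ lab x = i), ((c x : ℝ) * c y) * (f (g • x) * f (g • y)) := by
      intro g
      simp only [hA, hB]
      rw [Finset.sum_mul_sum]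
      refine Finset.sum_congr rfl fun x _ => Finset.sum_congr rfl fun y _ => by ring
    rw [Finset.sum_congr rfl fun g _ => h1 g, Finset.sum_comm]
    refine Finset.sum_eq_zero fun x hx => ?_
    rw [Finset.sum_comm]
    refine Finset.sum_eq_zero fun y hy => ?_
    rw [← Finset.mul_sum, H.orth x y, mul_zero]
    intro h
    exact (Finset.mem_filter.1 hy).2 (h ▸ (Finset.mem_filter.1 hx).2)
  have hsq : ∑ g, A g ^ 2 = 0 := by
    have h2 : ∀ g, A g ^ 2 = - (A g * B g) := by
      intro g
      have := hAB g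
      have h3 : B g = - A g := by linarith
      rw [h3]
      ring
    rw [Finset.sum_congr rfl fun g _ => h2 g, Finset.sum_neg_distrib, horth, neg_zero]
  have h3 := (Finset.sum_eq_zero_iff_of_nonneg (fun g _ => sq_nonneg (A g))).1 hsq g (mem_univ g)
  exact pow_eq_zero_iff (two_ne_zero) |>.1 h3

open Classical in
/-- the step of the descent -/
theorem Slopes.step (H : Slopes (G := G) lab bar f L r) (c : X → ℤ) (hc : ∀ x, c (bar x) = - c x)
    (hrel : ∀ g : G, ∑ x, (c x : ℝ) * f (g • x) = 0) (x : X) : (r (lab x) : ℤ) ∣ c x := by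
  obtain ⟨g, hg⟩ := H.unit x
  set i := lab x with hi
  set x₁ := g • x with hx₁
  have hlab₁ : lab x₁ = i := H.lab_smul g x
  set d : X → ℤ := fun y => c (g⁻¹ • y) with hd
  have hdbar : ∀ y, d (bar y) = - d y := by
    intro y
    simp only [hd]
    rw [← H.bar_smul, hc]
  -- the relation between the numbers of the class
  have h1 : ∑ y ∈ univ.filter (fun y => lab y = i), (d y : ℝ) * f y = 0 := by
    rw [← H.part c hrel i g]
    refine Finset.sum_bij' (fun y _ => g⁻¹ • y) (fun y _ => g • y) ?_ ?_ ?_ ?_ ?_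
    · intro y hy
      rw [Finset.mem_filter] at hy ⊢
      exact ⟨mem_univ _, by rw [H.lab_smul]; exact hy.2⟩
    · intro y hy
      rw [Finset.mem_filter] at hy ⊢
      exact ⟨mem_univ _, by rw [H.lab_smul]; exact hy.2⟩
    · intro y _
      exact smul_inv_smul g y
    · intro y _
      exact inv_smul_smul g y
    · intro y _
      simp only [hd, smul_inv_smul]
  -- the others
  set T : Finset X := (univ.filter (fun y => lab y = i)).erase x₁ |>.erase (bar x₁) with hT
  have hbar₁ : bar x₁ ≠ x₁ := H.bar_ne x₁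
  have hm₁ : x₁ ∈ univ.filter (fun y => lab y = i) := Finset.mem_filter.2 ⟨mem_univ _, hlab₁⟩
  have hm₂ : bar x₁ ∈ (univ.filter (fun y => lab y = i)).erase x₁ :=
    Finset.mem_erase.2 ⟨hbar₁, Finset.mem_filter.2 ⟨mem_univ _, by rw [H.lab_bar, hlab₁]⟩⟩
  have h2 : 2 * (c x : ℝ) * L + ∑ y ∈ T, (d y : ℝ) * f y = 0 := by
    have h3 := h1
    rw [← Finset.add_sum_erase _ _ hm₁, ← Finset.add_sum_erase _ _ hm₂, hdbar, H.odd, hg] at h3
    have h4 : d x₁ = c x := by
      simp only [hd, hx₁, inv_smul_smul]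
    rw [h4] at h3
    push_cast at h3
    linarith
  have hslope : ∀ y ∈ T, ∃ (n : ℕ) (m : ℤ), ¬ r i ∣ n ∧ (n : ℝ) * f y = r i * m * L := by
    intro y hy
    rw [hT, Finset.mem_erase, Finset.mem_erase, Finset.mem_filter] at hy
    rcases H.slope y with h | h | h
    · exact absurd (H.unique y x₁ (by rw [hy.2.2.2, hlab₁]) h hg) hy.2.1
    · exfalso
      have h5 : f (bar y) = L := by rw [H.odd, h, neg_neg]
      have h6 := H.unique (bar y) x₁ (by rw [H.lab_bar, hy.2.2.2, hlab₁]) h5 hg
      apply hy.1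
      rw [← h6, H.bar_bar]
    · rw [hy.2.2.2] at h
      exact h
  choose! n m hn hnm using hslope
  -- the common denominator
  set N : ℕ := ∏ y ∈ T, n y with hN
  have hrN : ¬ r i ∣ N := by
    rw [hN, (H.prime i).prime.dvd_finset_prod_iff]
    rintro ⟨y, hy, h⟩
    exact hn y hy h
  set M : X → ℤ := fun y => (∏ y' ∈ T.erase y, (n y' : ℤ)) * m y with hM
  have hNM : ∀ y ∈ T, (N : ℝ) * f y = r i * M y * L := by
    intro y hy
    have h7 : (N : ℝ) = (∏ y' ∈ T.erase y, (n y' : ℝ)) * n y := by
      rw [hN, Nat.cast_prod, mul_comm]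
      exact (Finset.mul_prod_erase T (fun y => (n y : ℝ)) hy).symm
    rw [h7, mul_assoc, hnm y hy]
    simp only [hM]
    push_cast
    ring
  have hri : (r i : ℝ) ≠ 0 := Nat.cast_ne_zero.2 (H.prime i).ne_zero
  have hTbar : ∀ y ∈ T, bar y ∈ T := by
    intro y hy
    rw [hT, Finset.mem_erase, Finset.mem_erase, Finset.mem_filter] at hy ⊢
    refine ⟨fun h => hy.2.1 ?_, fun h => hy.1 ?_, mem_univ _, by rw [H.lab_bar]; exact hy.2.2.2⟩
    · rw [← H.bar_bar y, h, H.bar_bar]
    · rw [← H.bar_bar y, h]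
  have hMbar : ∀ y ∈ T, M (bar y) = - M y := by
    intro y hy
    have h8 := hNM (bar y) (hTbar y hy)
    rw [H.odd, mul_neg, hNM y hy] at h8
    have h9 : (r i : ℝ) * L * (M (bar y) + M y) = 0 := by linarith
    have h10 : (M (bar y) : ℝ) + M y = 0 := by
      rcases mul_eq_zero.1 h9 with h | h
      · exact absurd h (mul_ne_zero hri H.pos.ne')
      · exact h
    have h11 : M (bar y) + M y = 0 := by exact_mod_cast h10
    linarith
  -- the sum over the others is even
  have heven : (2 : ℤ) ∣ ∑ y ∈ T, d y * M y := by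
    have h12 : ((∑ y ∈ T, d y * M y : ℤ) : ZMod 2) = 0 := by
      rw [Int.cast_sum]
      refine Finset.sum_involution (fun y _ => bar y) ?_ ?_ hTbar (fun y _ => H.bar_bar y)
      · intro y hy
        rw [hdbar, hMbar y hy, neg_mul_neg, ← two_mul]
        have : (2 : ZMod 2) = 0 := rfl
        rw [this, zero_mul]
      · intro y _ _
        exact H.bar_ne y
    exact (ZMod.intCast_zmod_eq_zero_iff_dvd _ 2).1 h12
  obtain ⟨K, hK⟩ := heven
  have h13 : (N : ℝ) * (2 * (c x : ℝ)) + r i * ∑ y ∈ T, (d y : ℝ) * M y = 0 := by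
    have h14 : (N : ℝ) * ∑ y ∈ T, (d y : ℝ) * f y = r i * (∑ y ∈ T, (d y : ℝ) * M y) * L := by
      rw [Finset.mul_sum, Finset.mul_sum, Finset.sum_mul]
      refine Finset.sum_congr rfl fun y hy => ?_
      rw [← mul_assoc, mul_comm (N : ℝ), mul_assoc, hNM y hy]
      ring
    have h15 : ((N : ℝ) * (2 * (c x : ℝ)) + r i * ∑ y ∈ T, (d y : ℝ) * M y) * L = 0 := by
      have h16 := congrArg (fun t => (N : ℝ) * t) h2
      simp only [mul_add, mul_zero] at h16
      rw [h14] at h16
      linarith
    rcases mul_eq_zero.1 h15 with h | h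
    · exact h
    · exact absurd h H.pos.ne'
  have h17 : (N : ℤ) * (2 * c x) + r i * (2 * K) = 0 := by
    rw [← hK]
    exact_mod_cast h13
  have h18 : (N : ℤ) * c x = (r i : ℤ) * (-K) := by linarith
  have h19 : (r i : ℤ) ∣ (N : ℤ) * c x := ⟨_, h18⟩
  rcases (Nat.prime_iff_prime_int.1 (H.prime i)).dvd_or_dvd h19 with h | h
  · exact absurd (Int.natCast_dvd_natCast.1 h) hrN
  · exact h

open Classical in
/-- **There are no relations.** -/
theorem Slopes.eq_zero (H : Slopes (G := G) lab bar f L r) (c : X → ℤ) (hc : ∀ x, c (bar x) = - c x)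
    (hrel : ∀ g : G, ∑ x, (c x : ℝ) * f (g • x) = 0) (x : X) : c x = 0 := by
  -- the part in one class
  set i := lab x with hi
  have key : ∀ (k : ℕ) (e : X → ℤ), (∀ x, e (bar x) = - e x) → (∀ y, lab y ≠ i → e y = 0) →
      (∀ g : G, ∑ x, (e x : ℝ) * f (g • x) = 0) → ∀ y, (r i : ℤ) ^ k ∣ e y := by
    intro k
    induction k with
    | zero => intro e _ _ _ y; simp
    | succ k ih =>
      intro e he hei her y
      have h1 : ∀ y, ∃ d : ℤ, e y = r i * d ∧ (lab y ≠ i → d = 0) := by
        intro y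
        by_cases hy : lab y = i
        · obtain ⟨d, hd⟩ := H.step e he her y
          exact ⟨d, by rw [← hy]; exact hd, fun h => absurd hy h⟩
        · exact ⟨0, by rw [hei y hy, mul_zero], fun _ => rfl⟩
      choose d hd hd0 using h1
      have hr0 : (r i : ℤ) ≠ 0 := Nat.cast_ne_zero.2 (H.prime i).ne_zero
      have h2 := ih d (fun y => by
        have h3 := he y
        rw [hd, hd] at h3
        have h4 : (r i : ℤ) * d (bar y) = (r i : ℤ) * (- d y) := by rw [h3]; ring
        exact mul_left_cancel₀ hr0 h4) hd0 (fun g => by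
        have h5 := her g
        have h6 : ∀ x, (e x : ℝ) * f (g • x) = (r i : ℝ) * ((d x : ℝ) * f (g • x)) := by
          intro x
          rw [hd]
          push_cast
          ring
        rw [Finset.sum_congr rfl fun x _ => h6 x, ← Finset.mul_sum] at h5
        rcases mul_eq_zero.1 h5 with h | h
        · exact absurd h (Nat.cast_ne_zero.2 (H.prime i).ne_zero)
        · exact h) y
      rw [hd, pow_succ, mul_comm]
      exact mul_dvd_mul_left _ h2
  let e : X → ℤ := fun y => if lab y = i then c y else 0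
  have he1 : ∀ y, e (bar y) = - e y := by
    intro y
    simp only [e]
    rw [H.lab_bar]
    split_ifs
    · exact hc y
    · simp
  have he3 : ∀ g : G, ∑ x, (e x : ℝ) * f (g • x) = 0 := by
    intro g
    rw [← H.part c hrel i g, Finset.sum_filter]
    refine Finset.sum_congr rfl fun y _ => ?_
    simp only [e]
    split_ifs
    · rfl
    · simp
  have h7 : ∀ k : ℕ, (r i : ℤ) ^ k ∣ c x := by
    intro k
    have h8 := key k e he1 (fun y hy => by simp only [e]; rw [if_neg hy]) he3 x
    have h9 : e x = c x := by simp only [e]; rw [if_pos hi.symm]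
    rwa [h9] at h8
  by_contra hne
  have h10 : 1 < r i := (H.prime i).one_lt
  obtain ⟨k, hk⟩ := pow_unbounded_of_one_lt (c x).natAbs h10
  have h11 := Int.natAbs_dvd_natAbs.2 (h7 k)
  rw [Int.natAbs_pow, Int.natAbs_natCast] at h11
  exact absurd (Nat.le_of_dvd (Int.natAbs_pos.2 hne) h11) (not_le.2 hk)

end Pool.Agent.KS6_5.UR
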