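import Mathlib
import Pool.Agent.KS6_5.OF.Defs

/-!
# Weil numbers with one unit root: definitions
-/

set_option autoImplicit false

namespace Pool.Agent.KS6_5.UR

open NumberField Pool.Agent.KS6_5.OF

/-- The numbers `π i` in the CM fields `E i` are Weil numbers for `q = p ^ a` (`weight`), and

* **exactly one** of the embeddings of `E i` into the algebraic closure of the field of `p`-adic
  numbers maps `π i` to a unit (`unit`), i. e. the slope `0` has multiplicity one;
* the other slopes `s ≠ 1` of `π i` (`|ψ (π i)| = q ^ (-s)`) satisfy `1 - 2 s = r i * m / n` with integers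
  `m`, `n` such that the prime number `r i` does not divide `n` (`slopes`; `m = 0` for `s = 1 / 2`);
* for `i ≠ j` and conjugates `z` of `π i` and `z'` of `π j` some automorphism of the field of algebraic
  numbers fixes a power of one of the numbers `z`, `z'` and maps a power of the other one to its
  complex conjugate (`flips`). -/
structure IsUnitRootNumbers (p : ℕ) [Fact p.Prime] (a : ℕ) {ι : Type} (r : ι → ℕ) {E : ι → Type}
    [∀ i, Field (E i)] [∀ i, NumberField (E i)] [∀ i, IsCMField (E i)] (π : ∀ i, E i) : Prop where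
  prime : ∀ i, (r i).Prime
  weight : ∀ i, π i * IsCMField.complexConj (E i) (π i) = (p : E i) ^ a
  unit : ∀ i, ∃! ψ : E i →+* PadicAlgCl p, ‖ψ (π i)‖ = 1
  slopes : ∀ i (ψ : E i →+* PadicAlgCl p), ‖ψ (π i)‖ = 1 ∨ ‖ψ (π i)‖ = ((p : ℝ) ^ a)⁻¹ ∨
    ∃ (n : ℕ) (m : ℤ), ¬ r i ∣ n ∧
      (‖ψ (π i)‖ ^ 2 * (p : ℝ) ^ a) ^ n = ((p : ℝ) ^ a) ^ ((r i : ℤ) * m)
  flips : ∀ i j, i ≠ j → ∀ (φ : E i →+* AlgebraicClosure ℚ) (φ' : E j →+* AlgebraicClosure ℚ),
    Flips (p ^ a) (φ (π i)) (φ' (π j)) ∨ Flips (p ^ a) (φ' (π j)) (φ (π i))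

/-- For each conjugate `z` of the `π i` some automorphism `h` of the field of algebraic numbers maps `z`
to its complex conjugate `q / z`, up to a root of unity, and preserves all `p`-adic absolute values of
`β`. (True if all `p`-adic absolute values of `β` are equal; true if `z` and `q / z` are conjugate over
the field generated by a power of `β`.) -/
def IsForeign (p : ℕ) [Fact p.Prime] (a : ℕ) {ι : Type} {E : ι → Type} [∀ i, Field (E i)]
    (π : ∀ i, E i) (β : AlgebraicClosure ℚ) : Prop :=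
  ∀ (i : ι) (φ : E i →+* AlgebraicClosure ℚ),
    ∃ h : AlgebraicClosure ℚ ≃ₐ[ℚ] AlgebraicClosure ℚ,
      (∃ m : ℕ, 0 < m ∧
        (h (φ (π i)) * φ (π i)) ^ m = ((p ^ a : ℕ) : AlgebraicClosure ℚ) ^ m) ∧
      ∀ l : AlgebraicClosure ℚ →+* PadicAlgCl p, ‖l (h β)‖ = ‖l β‖

end Pool.Agent.KS6_5.UR
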