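import Pool.Agent.KS6_5.UR.Torus

/-!
# Foreign numbers
-/

set_option autoImplicit false
set_option linter.unusedSectionVars false

namespace Pool.Agent.KS6_5.UR

open NumberField Pool.Agent.TH121.KT Pool.Agent.KS6_5.SP
open Pool.Agent.KS6_5.OF (Flips)

variable {p : ℕ} [Fact p.Prime] {a : ℕ} {ι : Type} {E : ι → Type} [∀ i, Field (E i)]
  [∀ i, NumberField (E i)] [∀ i, IsCMField (E i)] {π : ∀ i, E i}

/-- numbers with only one slope are foreign -/
theorem foreign_of_equal (hw : ∀ i, π i * IsCMField.complexConj (E i) (π i) = (p : E i) ^ a)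
    (β : AlgebraicClosure ℚ)
    (hβ : ∀ l l' : AlgebraicClosure ℚ →+* PadicAlgCl p, ‖l β‖ = ‖l' β‖) :
    IsForeign p a π β := by
  obtain ⟨φ₀⟩ : Nonempty (Qb →ₐ[ℚ] ℂ) := ⟨IsAlgClosed.lift⟩
  let φ : Qb →+* ℂ := φ₀.toRingHom
  obtain ⟨k, hk⟩ := exists_aut φ ((starRingEnd ℂ).comp φ)
  intro i ψ
  refine ⟨k, ⟨1, one_pos, ?_⟩, fun l => hβ (l.comp (k : Qb →+* Qb)) l⟩
  rw [pow_one, pow_one]
  apply φ.injective
  have h1 := congrArg (fun x => (φ.comp ψ) x) (hw i)
  simp only [map_mul, map_pow, map_natCast] at h1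
  rw [IsCMField.complexEmbedding_complexConj (E i) (φ.comp ψ) (π i)] at h1
  rw [map_mul, ← hk, map_natCast, mul_comm, Nat.cast_pow]
  exact h1

/-- numbers such that the conjugates of the `π i` are conjugate to their complex conjugates over the
field of a power are foreign -/
theorem foreign_of_flips (β : AlgebraicClosure ℚ)
    (hβ : ∀ i (φ : E i →+* AlgebraicClosure ℚ), Flips (p ^ a) β (φ (π i))) :
    IsForeign p a π β := by
  intro i φ
  obtain ⟨g, m, hm, h1, h2⟩ := hβ i φ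
  refine ⟨g, ⟨m, hm, h2⟩, fun l => ?_⟩
  have h3 := congrArg (fun x => ‖l x‖) h1
  simp only [map_pow, norm_pow] at h3
  exact (pow_left_inj₀ (norm_nonneg _) (norm_nonneg _) hm.ne').1 h3

end Pool.Agent.KS6_5.UR
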