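import Pool.Agent.KS6_5.UR.Core
import Pool.Agent.KS6_5.UR.Defs
import Pool.Agent.KS6_5.OF.Fields

/-!
# Weil numbers with one unit root: the relations are balanced
-/

set_option autoImplicit false
set_option linter.unusedSectionVars false
set_option linter.unusedVariables false

namespace Pool.Agent.KS6_5.UR

open NumberField Polynomial Module IntermediateField
open Pool.Agent.TH121.KT Pool.Agent.KS6_5.SP Pool.Agent.KS6_5.OC Pool.Agent.KS6_5.OG
open Pool.Agent.KS6_5.OF (Flips lv log_q lv_conj lv_pow)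

noncomputable section

variable {p : ℕ} [Fact p.Prime] {a : ℕ} {ι : Type} {r : ι → ℕ} {E : ι → Type} [∀ i, Field (E i)]
  [∀ i, NumberField (E i)] [∀ i, IsCMField (E i)] {π : ∀ i, E i}

/-- the embeddings into the `p`-adic field come from the algebraic numbers -/
theorem exists_lift (τ : Qb →+* PadicAlgCl p) {K : Type} [Field K] [NumberField K]
    (ψ : K →+* PadicAlgCl p) : ∃ σ : K →+* Qb, τ.comp σ = ψ := by
  have h1 : Function.Injective (fun σ : K →+* Qb => τ.comp σ) := by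
    intro σ σ' h
    ext x
    exact τ.injective (RingHom.congr_fun h x)
  have h2 : Fintype.card (K →+* Qb) = Fintype.card (K →+* PadicAlgCl p) := by
    rw [NumberField.Embeddings.card, NumberField.Embeddings.card]
  exact ((Fintype.bijective_iff_injective_and_card _).2 ⟨h1, h2⟩).2 ψ

/-- the Galois group acts on the embeddings -/
def ac (E : ι → Type) [∀ i, Field (E i)] : GQ →* Equiv.Perm (Σ i, (E i →+* Qb)) where
  toFun g :=
    { toFun := fun x => ⟨x.1, (g : Qb →+* Qb).comp x.2⟩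
      invFun := fun x => ⟨x.1, ((g⁻¹ : GQ) : Qb →+* Qb).comp x.2⟩
      left_inv := by
        rintro ⟨i, φ⟩
        have : ((g⁻¹ : GQ) : Qb →+* Qb).comp ((g : Qb →+* Qb).comp φ) = φ := by
          ext x
          change (g⁻¹ * g) (φ x) = φ x
          rw [inv_mul_cancel]
          rfl
        simp only [this]
      right_inv := by
        rintro ⟨i, φ⟩
        have : (g : Qb →+* Qb).comp (((g⁻¹ : GQ) : Qb →+* Qb).comp φ) = φ := by
          ext x
          change (g * g⁻¹) (φ x) = φ x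
          rw [mul_inv_cancel]
          rfl
        simp only [this] }
  map_one' := Equiv.ext fun x => rfl
  map_mul' g h := Equiv.ext fun x => rfl

/-- the number of a letter -/
def vl (π : ∀ i, E i) (x : Σ i, (E i →+* Qb)) : Qb := x.2 (π x.1)

theorem vl_ac (g : GQ) (x : Σ i, (E i →+* Qb)) : vl π (ac E g x) = g (vl π x) := rfl

theorem lv_comp (τ : Qb →+* PadicAlgCl p) (g : GQ) (x : Σ i, (E i →+* Qb)) :
    lv a (τ.comp (g : Qb →+* Qb)) (vl π x) = lv a τ (vl π (ac E g x)) := rfl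

theorem IsUnitRootNumbers.conj (H : IsUnitRootNumbers p a r π) (x : Σ i, (E i →+* Qb)) :
    vl π x * vl π (cjS x) = ((p ^ a : ℕ) : Qb) := by
  change x.2 (π x.1) * x.2 (IsCMField.complexConj (E x.1) (π x.1)) = _
  rw [← map_mul, H.weight, map_pow, map_natCast, Nat.cast_pow]

theorem q_ne : ((p ^ a : ℕ) : Qb) ≠ 0 :=
  Nat.cast_ne_zero.2 (pow_pos (Fact.out : p.Prime).pos _).ne'

theorem IsUnitRootNumbers.ne_zero (H : IsUnitRootNumbers p a r π) (x : Σ i, (E i →+* Qb)) :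
    vl π x ≠ 0 := by
  intro h
  have h1 := H.conj x
  rw [h, zero_mul] at h1
  exact q_ne h1.symm

theorem IsUnitRootNumbers.lv_bar (H : IsUnitRootNumbers p a r π) (l : Qb →+* PadicAlgCl p)
    (x : Σ i, (E i →+* Qb)) : lv a l (vl π (cjS x)) = - lv a l (vl π x) :=
  lv_conj (H.ne_zero x) (H.ne_zero _) one_pos (by rw [pow_one, pow_one]; exact H.conj x)

theorem log_pos' (ha : 0 < a) : 0 < Real.log ((p ^ a : ℕ) : ℝ) :=
  Real.log_pos (by exact_mod_cast Nat.one_lt_pow ha.ne' (Fact.out : p.Prime).one_lt)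

/-- the unit roots -/
theorem IsUnitRootNumbers.lv_eq_iff (H : IsUnitRootNumbers p a r π) (l : Qb →+* PadicAlgCl p)
    (x : Σ i, (E i →+* Qb)) :
    lv a l (vl π x) = Real.log ((p ^ a : ℕ) : ℝ) ↔ ‖l (vl π x)‖ = 1 := by
  have hpos : 0 < ‖l (vl π x)‖ := norm_pos_iff.2 ((_root_.map_ne_zero l).2 (H.ne_zero x))
  unfold lv
  constructor
  · intro h
    have h1 : Real.log ‖l (vl π x)‖ = 0 := by linarith
    exact Real.eq_one_of_pos_of_log_eq_zero hpos h1
  · intro h
    rw [h, Real.log_one]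
    ring

theorem IsUnitRootNumbers.unique_unit (H : IsUnitRootNumbers p a r π) (l : Qb →+* PadicAlgCl p)
    {x y : Σ i, (E i →+* Qb)} (hxy : x.1 = y.1)
    (hx : lv a l (vl π x) = Real.log ((p ^ a : ℕ) : ℝ))
    (hy : lv a l (vl π y) = Real.log ((p ^ a : ℕ) : ℝ)) : x = y := by
  rw [H.lv_eq_iff] at hx hy
  obtain ⟨i, φ⟩ := x
  obtain ⟨j, φ'⟩ := y
  obtain rfl : i = j := hxy
  have h1 : l.comp φ = l.comp φ' := (H.unit i).unique hx hy
  have h2 : φ = φ' := by
    ext t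
    exact l.injective (RingHom.congr_fun h1 t)
  rw [h2]

/-- there are unit roots -/
theorem IsUnitRootNumbers.exists_unit (H : IsUnitRootNumbers p a r π) (l : Qb →+* PadicAlgCl p)
    (x : Σ i, (E i →+* Qb)) : ∃ g : GQ, lv a l (vl π (ac E g x)) = Real.log ((p ^ a : ℕ) : ℝ) := by
  obtain ⟨ψ, hψ, _⟩ := H.unit x.1
  obtain ⟨σ, hσ⟩ := exists_lift l ψ
  -- an automorphism maps one of the embeddings to the other one
  have hmin : ∀ φ : E x.1 →+* Qb, minpoly ℚ (φ (π x.1)) = minpoly ℚ (π x.1) := fun φ =>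
    minpoly.algHom_eq φ.toRatAlgHom φ.injective (π x.1)
  obtain ⟨g, hg⟩ : ∃ g : GQ, g (x.2 (π x.1)) = σ (π x.1) :=
    minpoly.exists_algEquiv_of_root (Algebra.IsAlgebraic.isAlgebraic _) (by
      rw [hmin σ, ← hmin x.2, minpoly.aeval])
  refine ⟨g, (H.lv_eq_iff l _).2 ?_⟩
  rw [vl_ac]
  change ‖l (g (x.2 (π x.1)))‖ = 1
  rw [hg]
  have h1 : l (σ (π x.1)) = ψ (π x.1) := RingHom.congr_fun hσ (π x.1)
  rw [h1]
  exact hψ

/-- the numbers determine the embeddings -/
theorem IsUnitRootNumbers.inj (ha : 0 < a) (H : IsUnitRootNumbers p a r π)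
    {x y : Σ i, (E i →+* Qb)} (h : vl π x = vl π y) : x = y := by
  obtain ⟨τp⟩ : Nonempty (Qb →ₐ[ℚ] PadicAlgCl p) := ⟨IsAlgClosed.lift⟩
  let τ : Qb →+* PadicAlgCl p := τp.toRingHom
  obtain ⟨g, hg⟩ := H.exists_unit τ x
  have hL := log_pos' (p := p) ha
  by_cases hxy : x.1 = y.1
  · have h1 : ac E g x = ac E g y := H.unique_unit τ hxy hg (by
      rw [vl_ac, ← h, ← vl_ac]
      exact hg)
    exact (ac E g).injective h1
  · exfalso
    have h2 : ∃ k : GQ, ∃ m : ℕ, 0 < m ∧ (k (vl π x)) ^ m = vl π x ^ m ∧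
        (k (vl π x) * vl π x) ^ m = ((p ^ a : ℕ) : Qb) ^ m := by
      rcases H.flips x.1 y.1 hxy x.2 y.2 with ⟨k, m, hm, h3, h4⟩ | ⟨k, m, hm, h3, h4⟩
      · refine ⟨k, m, hm, h3, ?_⟩
        change (k (vl π y) * vl π y) ^ m = _ at h4
        rwa [← h] at h4
      · refine ⟨k, m, hm, ?_, h4⟩
        change (k (vl π y)) ^ m = (vl π y) ^ m at h3
        rwa [← h] at h3
    obtain ⟨k, m, hm, h3, h4⟩ := h2
    have h5 : (vl π x * vl π x) ^ m = ((p ^ a : ℕ) : Qb) ^ m := by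
      rw [← h4, mul_pow, mul_pow, h3]
    have h6 := lv_conj (a := a) (l := τ.comp (g : Qb →+* Qb)) (H.ne_zero x) (H.ne_zero x) hm h5
    rw [lv_comp, hg] at h6
    linarith

/-- **The functions of slopes.** -/
theorem IsUnitRootNumbers.toSlopes [Fintype ι] (ha : 0 < a) (H : IsUnitRootNumbers p a r π)
    (τ : Qb →+* PadicAlgCl p) [Fintype (ac E).range] :
    Slopes (G := (ac E).range) (X := Σ i, (E i →+* Qb)) (ι := ι) Sigma.fst cjS
      (fun x => lv a τ (vl π x)) (Real.log ((p ^ a : ℕ) : ℝ)) r := by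
  have hL := log_pos' (p := p) ha
  have hunit : ∀ x : Σ i, (E i →+* Qb), ∃ g : (ac E).range,
      lv a τ (vl π (g • x)) = Real.log ((p ^ a : ℕ) : ℝ) := by
    intro x
    obtain ⟨g, hg⟩ := H.exists_unit τ x
    exact ⟨⟨ac E g, g, rfl⟩, hg⟩
  refine ⟨H.prime, hL, ?_, fun x => rfl, cjS_cjS, ?_, ?_, H.lv_bar τ, hunit, ?_, ?_, ?_⟩
  · rintro ⟨_, g, rfl⟩ x
    rfl
  · rintro ⟨_, g, rfl⟩ x
    rfl
  · intro x hx
    obtain ⟨⟨_, g, rfl⟩, hg⟩ := hunit x
    change lv a τ (vl π (ac E g x)) = _ at hg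
    have h1 := H.lv_bar (τ.comp (g : Qb →+* Qb)) x
    rw [hx, lv_comp, hg] at h1
    linarith
  · intro x y hxy hx hy
    exact H.unique_unit τ hxy hx hy
  · intro x
    have hpos : 0 < ‖τ (vl π x)‖ := norm_pos_iff.2 ((_root_.map_ne_zero τ).2 (H.ne_zero x))
    rcases H.slopes x.1 (τ.comp x.2) with h | h | ⟨n, m, hn, h⟩
    · exact Or.inl ((H.lv_eq_iff τ x).2 h)
    · refine Or.inr (Or.inl ?_)
      have h1 : ‖τ (vl π x)‖ = ((p : ℝ) ^ a)⁻¹ := h
      unfold lv
      rw [h1, Real.log_inv]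
      push_cast
      ring
    · refine Or.inr (Or.inr ⟨n, m, hn, ?_⟩)
      have h1 : (‖τ (vl π x)‖ ^ 2 * (p : ℝ) ^ a) ^ n = ((p : ℝ) ^ a) ^ ((r x.1 : ℤ) * m) := h
      have hq : (0 : ℝ) < (p : ℝ) ^ a := pow_pos (Nat.cast_pos.2 (Fact.out : p.Prime).pos) _
      have h2 := congrArg Real.log h1
      rw [Real.log_pow, Real.log_mul (pow_ne_zero _ hpos.ne') hq.ne', Real.log_pow,
        Real.log_zpow] at h2
      unfold lv
      push_cast at h2 ⊢
      linarith
  · intro x y hxy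
    have key : ∀ x y : Σ i, (E i →+* Qb), Flips (p ^ a) (vl π x) (vl π y) →
        ∑ γ : (ac E).range, lv a τ (vl π (γ • x)) * lv a τ (vl π (γ • y)) = 0 := by
      rintro x y ⟨g, m, hm, h1, h2⟩
      have h3 : ∑ γ : (ac E).range, lv a τ (vl π (γ • x)) * lv a τ (vl π (γ • y)) =
          ∑ γ : (ac E).range, - (lv a τ (vl π (γ • x)) * lv a τ (vl π (γ • y))) := by
        refine Fintype.sum_equiv (Equiv.mulRight (⟨ac E g, g, rfl⟩ : (ac E).range)⁻¹) _ _ ?_
        intro γ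
        obtain ⟨δ', rfl⟩ : ∃ δ', γ = δ' * (⟨ac E g, g, rfl⟩ : (ac E).range) :=
          ⟨γ * (⟨ac E g, g, rfl⟩ : (ac E).range)⁻¹, by rw [inv_mul_cancel_right]⟩
        simp only [Equiv.coe_mulRight, mul_inv_cancel_right]
        obtain ⟨_, k, rfl⟩ := δ'
        change lv a (τ.comp (k : Qb →+* Qb)) (g (vl π x)) *
            lv a (τ.comp (k : Qb →+* Qb)) (g (vl π y)) =
          - (lv a (τ.comp (k : Qb →+* Qb)) (vl π x) * lv a (τ.comp (k : Qb →+* Qb)) (vl π y))
        have e1 : lv a (τ.comp (k : Qb →+* Qb)) (g (vl π x)) =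
            lv a (τ.comp (k : Qb →+* Qb)) (vl π x) := lv_pow hm h1
        have e2 : lv a (τ.comp (k : Qb →+* Qb)) (g (vl π y)) =
            - lv a (τ.comp (k : Qb →+* Qb)) (vl π y) := by
          rw [mul_comm] at h2
          exact lv_conj (H.ne_zero y) ((map_ne_zero_iff g g.injective).2 (H.ne_zero y)) hm h2
        rw [e1, e2, mul_neg]
      rw [Finset.sum_neg_distrib] at h3
      linarith
    rcases H.flips x.1 y.1 hxy x.2 y.2 with h | h
    · exact key x y h
    · have h1 := key y x h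
      rw [← h1]
      exact Finset.sum_congr rfl fun γ _ => mul_comm _ _

end

end Pool.Agent.KS6_5.UR
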